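import Mathlib

/-!
# A counterexample to the fourth-moment conjecture for distance graphs of binary codes

For every `0 < δ < 1/2` there are codes of length `n` and minimal distance `d = ⌊δ n⌋` whose
distance-`d` graph is a star with exponentially many leaves: the word `0` together with
exponentially many words of weight `d` at pairwise distances larger than `d`.  A star is
`1`-balanced, its eigenvalues are `±√m` and `0`, and so `‖λ‖₄ / ‖λ‖₂` is exponentially large.
-/

set_option autoImplicit false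

open Finset Matrix

namespace Pool.Agent.Results.MP_5eddec_co.StarCounterexample

/-- Any two distinct elements of `C ⊆ {0,1}^n` are at Hamming distance at least `d`. -/
def IsCode (n d : ℕ) (C : Finset (Fin n → Bool)) : Prop :=
  ∀ x ∈ C, ∀ y ∈ C, x ≠ y → d ≤ hammingDist x y

/-- The distance-`i` graph `G(C,i)`. -/
def distGraph {n : ℕ} (C : Finset (Fin n → Bool)) (i : ℕ) : SimpleGraph C where
  Adj x y := x ≠ y ∧ hammingDist x.1 y.1 = i
  symm := ⟨fun _ _ h => ⟨h.1.symm, by rw [hammingDist_comm]; exact h.2⟩⟩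
  loopless := ⟨fun _ h => h.1 rfl⟩

theorem isHermitian_adj {V : Type} [Fintype V] [DecidableEq V] (G : SimpleGraph V) [DecidableRel G.Adj] :
    (G.adjMatrix ℝ).IsHermitian := by
  ext i j
  simp [Matrix.conjTranspose_apply, SimpleGraph.adjMatrix_apply, G.adj_comm]

open Classical in
/-- The eigenvalues, with multiplicity, of the adjacency matrix of `G`. -/
noncomputable def eig {V : Type} [Fintype V] (G : SimpleGraph V) : V → ℝ :=
  (isHermitian_adj G).eigenvalues

/-- The `p`-norm with respect to the uniform probability measure. -/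
noncomputable def unorm {V : Type} [Fintype V] (p : ℕ) (lam : V → ℝ) : ℝ :=
  ((∑ v, |lam v| ^ p) / (Fintype.card V : ℝ)) ^ ((1 : ℝ) / p)

/-- The number `|E(X,X)|` of edges of `G` with both endpoints in `X`. -/
noncomputable def edgesIn {V : Type} (G : SimpleGraph V) (X : Finset V) : ℕ :=
  {e ∈ G.edgeSet | ∀ v ∈ e, v ∈ X}.ncard

/-- `G` has an edge and `|E(X,X)| / |X| ≤ t |E| / |V|` for all nonempty `X ⊆ V`. -/
def Balanced {V : Type} [Fintype V] (t : ℝ) (G : SimpleGraph V) : Prop :=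
  G.edgeSet.Nonempty ∧ ∀ X : Finset V, X.Nonempty →
    (edgesIn G X : ℝ) / (X.card : ℝ) ≤ t * ((G.edgeSet.ncard : ℝ) / (Fintype.card V : ℝ))

open Classical in
theorem sum_eig_pow {V : Type} [Fintype V] (G : SimpleGraph V) (k : ℕ) :
    ∑ v, (eig G v) ^ k = ((G.adjMatrix ℝ) ^ k).trace := by
  have hA := isHermitian_adj G
  have h := hA.spectral_theorem
  conv_rhs => rw [h]
  rw [← map_pow, Matrix.diagonal_pow, Unitary.conjStarAlgAut_apply, Matrix.trace_mul_cycle]
  rw [Unitary.coe_star_mul_self, Matrix.one_mul]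
  simp only [Matrix.trace_diagonal]
  rfl

section Star

variable {V : Type} [Fintype V] (G : SimpleGraph V) (c : V)
  (hG : ∀ u v, G.Adj u v ↔ u ≠ v ∧ (u = c ∨ v = c))

include hG

open Classical in
theorem star_edgesIn (X : Finset V) :
    edgesIn G X = if c ∈ X then X.card - 1 else 0 := by
  unfold edgesIn
  split_ifs with hc
  · have : {e ∈ G.edgeSet | ∀ v ∈ e, v ∈ X} = ((X.erase c).image (fun v => s(c, v)) : Finset (Sym2 V)) := by
      ext e
      induction e with
      | _ u v =>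
        simp only [Set.mem_ofPred_eq, SimpleGraph.mem_edgeSet, hG, Sym2.mem_iff, forall_eq_or_imp,
          forall_eq, coe_image, Set.mem_image, mem_coe, mem_erase, Sym2.eq_iff]
        constructor
        · rintro ⟨⟨huv, rfl | rfl⟩, hu, hv⟩
          · exact ⟨v, ⟨huv.symm, hv⟩, by simp⟩
          · exact ⟨u, ⟨huv, hu⟩, by simp⟩
        · rintro ⟨w, ⟨hw, hwX⟩, ⟨rfl, rfl⟩ | ⟨rfl, rfl⟩⟩
          · exact ⟨⟨hw.symm, by simp⟩, hc, hwX⟩
          · exact ⟨⟨hw, by simp⟩, hwX, hc⟩
    rw [this, Set.ncard_coe_finset, Finset.card_image_of_injective, Finset.card_erase_of_mem hc]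
    intro v w hvw
    have := Sym2.eq_iff.1 (show s(c, v) = s(c, w) from hvw)
    rcases this with h | h
    · exact h.2
    · exact h.2.trans h.1
  · have : {e ∈ G.edgeSet | ∀ v ∈ e, v ∈ X} = (∅ : Set (Sym2 V)) := by
      ext e
      induction e with
      | _ u v =>
        simp only [Set.mem_ofPred_eq, SimpleGraph.mem_edgeSet, hG, Sym2.mem_iff, forall_eq_or_imp,
          forall_eq, Set.mem_empty_iff_false, iff_false]
        rintro ⟨⟨huv, rfl | rfl⟩, hu, hv⟩
        · exact hc hu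
        · exact hc hv
    rw [this, Set.ncard_empty]

theorem star_edges : G.edgeSet.ncard = Fintype.card V - 1 := by
  classical
  have h := star_edgesIn G c hG Finset.univ
  simp only [mem_univ, if_true] at h
  rw [← Finset.card_univ, ← h]
  unfold edgesIn
  congr 1
  ext e
  simp

theorem star_balanced (hV : 2 ≤ Fintype.card V) : Balanced 1 G := by
  classical
  constructor
  · obtain ⟨v, hv⟩ : ∃ v, v ≠ c := by
      by_contra hcon
      push Not at hcon
      have : Fintype.card V ≤ 1 := Fintype.card_le_one_iff.2 fun a b => (hcon a).trans (hcon b).symm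
      omega
    exact ⟨s(c, v), by simp [hG, hv.symm]⟩
  · intro X hX
    rw [star_edgesIn G c hG X, star_edges G c hG, one_mul]
    have hXc : 1 ≤ X.card := hX.card_pos
    have hXV : X.card ≤ Fintype.card V := Finset.card_le_univ X
    have hX0 : (0 : ℝ) < X.card := by exact_mod_cast hXc
    have hV0 : (0 : ℝ) < Fintype.card V := by
      have : 0 < Fintype.card V := by omega
      exact_mod_cast this
    have hle : (X.card : ℝ) ≤ Fintype.card V := by exact_mod_cast hXV
    split_ifs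
    · rw [Nat.cast_sub hXc, Nat.cast_sub (by omega : 1 ≤ Fintype.card V), div_le_div_iff₀ hX0 hV0]
      push_cast
      nlinarith
    · simp only [Nat.cast_zero, zero_div]
      positivity

open Classical in
theorem star_trace_two : ((G.adjMatrix ℝ) ^ 2).trace = 2 * ((Fintype.card V : ℝ) - 1) := by
  have h1 : ((G.adjMatrix ℝ) ^ 2).trace = ∑ v, (G.degree v : ℝ) := by
    simp only [Matrix.trace, Matrix.diag, pow_two]
    exact Finset.sum_congr rfl fun v _ => SimpleGraph.adjMatrix_mul_self_apply_self G v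
  have h2 := G.sum_degrees_eq_twice_card_edges
  have h3 := star_edges G c hG
  have h4 : #G.edgeFinset = G.edgeSet.ncard := by
    rw [← SimpleGraph.coe_edgeFinset, Set.ncard_coe_finset]
  have hpos : 1 ≤ Fintype.card V := Fintype.card_pos_iff.2 ⟨c⟩
  rw [h1, ← Nat.cast_sum, h2, h4, h3]
  push_cast [Nat.cast_sub hpos]
  ring

open Classical in
theorem star_degree : G.degree c = Fintype.card V - 1 := by
  rw [SimpleGraph.degree]
  have : G.neighborFinset c = Finset.univ.erase c := by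
    ext v
    simp [hG, ne_comm]
  rw [this, Finset.card_erase_of_mem (Finset.mem_univ _), Finset.card_univ]

open Classical in
theorem star_trace_four : ((Fintype.card V : ℝ) - 1) ^ 2 ≤ ((G.adjMatrix ℝ) ^ 4).trace := by
  set B := (G.adjMatrix ℝ) ^ 2 with hB
  have hsymm : ∀ i j, B i j = B j i := by
    intro i j
    have : Bᵀ = B := by
      rw [hB, Matrix.transpose_pow, SimpleGraph.transpose_adjMatrix]
    conv_lhs => rw [← this]
    rfl
  have h4 : ((G.adjMatrix ℝ) ^ 4).trace = ∑ i, ∑ j, (B i j) ^ 2 := by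
    have : (G.adjMatrix ℝ) ^ 4 = B * B := by rw [hB]; noncomm_ring
    rw [this]
    simp only [Matrix.trace, Matrix.diag, Matrix.mul_apply]
    refine Finset.sum_congr rfl fun i _ => Finset.sum_congr rfl fun j _ => ?_
    rw [hsymm j i, pow_two]
  have hcc : B c c = (Fintype.card V : ℝ) - 1 := by
    rw [hB, pow_two, SimpleGraph.adjMatrix_mul_self_apply_self, star_degree G c hG,
      Nat.cast_sub (Fintype.card_pos_iff.2 ⟨c⟩)]
    simp
  rw [h4, ← hcc]
  calc (B c c) ^ 2 ≤ ∑ j, (B c j) ^ 2 :=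
        Finset.single_le_sum (f := fun j => (B c j) ^ 2) (fun j _ => sq_nonneg _) (Finset.mem_univ c)
    _ ≤ ∑ i, ∑ j, (B i j) ^ 2 :=
        Finset.single_le_sum (f := fun i => ∑ j, (B i j) ^ 2)
          (fun i _ => Finset.sum_nonneg fun j _ => sq_nonneg _) (Finset.mem_univ c)

theorem star_ratio (hV : 2 ≤ Fintype.card V) :
    (((Fintype.card V : ℝ) - 1) / 8) ^ ((1 : ℝ) / 4) ≤ unorm 4 (eig G) / unorm 2 (eig G) := by
  classical
  set N : ℝ := (Fintype.card V : ℝ) with hN
  have hN2 : 2 ≤ N := by rw [hN]; exact_mod_cast hV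
  have e2 : ∑ v, |eig G v| ^ 2 = 2 * (N - 1) := by
    rw [hN, ← star_trace_two G c hG, ← sum_eig_pow]
    exact Finset.sum_congr rfl fun v _ => sq_abs _
  have e4 : (N - 1) ^ 2 ≤ ∑ v, |eig G v| ^ 4 := by
    refine (star_trace_four G c hG).trans_eq ?_
    rw [← sum_eig_pow]
    refine Finset.sum_congr rfl fun v _ => ?_
    rw [show (4 : ℕ) = 2 * 2 from rfl, pow_mul, pow_mul, sq_abs]
  have hN0 : 0 < N := by linarith
  have h2 : unorm 2 (eig G) = (2 * (N - 1) / N) ^ ((1 : ℝ) / 2) := by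
    unfold unorm
    rw [e2, ← hN]
    norm_num
  have h2' : unorm 2 (eig G) ≤ (2 : ℝ) ^ ((1 : ℝ) / 2) := by
    rw [h2]
    refine Real.rpow_le_rpow (by apply div_nonneg <;> linarith) ?_ (by norm_num)
    rw [div_le_iff₀ hN0]
    linarith
  have h2pos : 0 < unorm 2 (eig G) := by
    rw [h2]
    apply Real.rpow_pos_of_pos
    apply div_pos <;> linarith
  have h4 : ((N - 1) / 2) ^ ((1 : ℝ) / 4) ≤ unorm 4 (eig G) := by
    unfold unorm
    rw [← hN]
    push_cast
    refine Real.rpow_le_rpow (by linarith) ?_ (by norm_num)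
    rw [le_div_iff₀ hN0]
    refine le_trans ?_ e4
    nlinarith
  rw [le_div_iff₀ h2pos]
  refine le_trans (mul_le_mul_of_nonneg_left h2' (Real.rpow_nonneg (by linarith) _)) ?_
  refine le_trans (le_of_eq ?_) h4
  have : (2 : ℝ) ^ ((1 : ℝ) / 2) = (4 : ℝ) ^ ((1 : ℝ) / 4) := by
    rw [show (4 : ℝ) = 2 ^ (2 : ℝ) by norm_num, ← Real.rpow_mul (by norm_num)]
    norm_num
  rw [this, ← Real.mul_rpow (by linarith) (by norm_num)]
  congr 1
  ring

end Star


theorem greedy {X : Type} [Fintype X] [DecidableEq X] (bad : X → X → Prop) [DecidableRel bad]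
    (hrefl : ∀ x, bad x x) (hsymm : ∀ x y, bad x y → bad y x) :
    ∃ W : Finset X, (∀ x ∈ W, ∀ y ∈ W, x ≠ y → ¬ bad x y) ∧
      Fintype.card X ≤ ∑ x ∈ W, (univ.filter fun y => bad x y).card := by
  classical
  let P : Finset (Finset X) :=
    univ.filter fun W => ∀ x ∈ W, ∀ y ∈ W, x ≠ y → ¬ bad x y
  have hP : P.Nonempty := ⟨∅, by simp [P]⟩
  obtain ⟨W, hW, hmax⟩ := Finset.exists_max_image P Finset.card hP
  have hW' : ∀ x ∈ W, ∀ y ∈ W, x ≠ y → ¬ bad x y := by simpa [P] using hW
  refine ⟨W, hW', ?_⟩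
  have hcov : ∀ y : X, ∃ x ∈ W, bad x y := by
    intro y
    by_contra hcon
    push Not at hcon
    have hyW : y ∉ W := fun h => hcon y h (hrefl y)
    have hins : insert y W ∈ P := by
      simp only [P, mem_filter, mem_univ, true_and, mem_insert]
      rintro a (rfl | ha) b (rfl | hb) hab
      · exact absurd rfl hab
      · exact fun h => hcon b hb (hsymm _ _ h)
      · exact hcon a ha
      · exact hW' a ha b hb hab
    have := hmax _ hins
    rw [Finset.card_insert_of_notMem hyW] at this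
    omega
  rw [← Finset.card_univ]
  calc (univ : Finset X).card ≤ (W.biUnion fun x => univ.filter fun y => bad x y).card := by
        apply Finset.card_le_card
        intro y _
        obtain ⟨x, hx, hb⟩ := hcov y
        simp only [mem_biUnion, mem_filter, mem_univ, true_and]
        exact ⟨x, hx, hb⟩
    _ ≤ _ := Finset.card_biUnion_le

section Shift

variable {K : Type} [AddCommGroup K] [Fintype K] [DecidableEq K] (I : Finset K)

/-- the translate `I + a` -/
def T (a : K) : Finset K := univ.filter fun k => k - a ∈ I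

theorem card_T (a : K) : (T I a).card = I.card := by
  have : T I a = I.image (fun k => k + a) := by
    ext k
    simp only [T, mem_filter, mem_univ, true_and, mem_image]
    constructor
    · intro h
      exact ⟨k - a, h, by abel⟩
    · rintro ⟨i, hi, rfl⟩
      simpa using hi
  rw [this, Finset.card_image_of_injective]
  exact add_left_injective a

theorem sum_card_inter (a : K) : ∑ a' : K, (T I a ∩ T I a').card = I.card * I.card := by
  have h1 : ∀ a' : K, (T I a ∩ T I a').card = ∑ k ∈ T I a, if k ∈ T I a' then 1 else 0 := by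
    intro a'
    rw [Finset.card_eq_sum_ones, ← Finset.filter_mem_eq_inter, Finset.sum_filter]
  have h2 : ∀ k : K, (∑ a' : K, if k ∈ T I a' then 1 else 0) = I.card := by
    intro k
    rw [← Finset.card_filter]
    have : (univ.filter fun a' => k ∈ T I a') = I.image (fun i => k - i) := by
      ext a'
      simp only [T, mem_filter, mem_univ, true_and, mem_image]
      constructor
      · intro h
        exact ⟨k - a', h, by abel⟩
      · rintro ⟨i, hi, rfl⟩
        simpa using hi
    rw [this, Finset.card_image_of_injective]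
    exact sub_right_injective
  simp only [h1]
  rw [Finset.sum_comm, Finset.sum_congr rfl (fun k _ => h2 k), Finset.sum_const, card_T, smul_eq_mul]

theorem pow_le_lin (θ : ℝ) (hθ : 1 ≤ θ) (r z : ℕ) (hr : 0 < r) (hz : z ≤ r) :
    θ ^ z ≤ 1 + (z : ℝ) / r * (θ ^ r - 1) := by
  have hr' : (0 : ℝ) < r := by exact_mod_cast hr
  have h := Real.geom_mean_le_arith_mean2_weighted (w₁ := (z : ℝ) / r) (w₂ := 1 - (z : ℝ) / r)
    (p₁ := θ ^ r) (p₂ := 1) (by positivity)
    (by rw [sub_nonneg, div_le_one hr']; exact_mod_cast hz) (by positivity) (by norm_num) (by ring)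
  rw [Real.one_rpow, mul_one, ← Real.rpow_natCast θ r, ← Real.rpow_mul (by linarith),
    mul_div_cancel₀ _ hr'.ne', Real.rpow_natCast, Real.rpow_natCast] at h
  linarith

theorem sum_pow_le (r : ℕ) (hr : 0 < r) (hI : I.card = r) (θ : ℝ) (hθ : 1 ≤ θ) (a : K) :
    ∑ a' : K, θ ^ (T I a ∩ T I a').card ≤ Fintype.card K + r * (θ ^ r - 1) := by
  have hr' : (0 : ℝ) < r := by exact_mod_cast hr
  calc ∑ a' : K, θ ^ (T I a ∩ T I a').card
      ≤ ∑ a' : K, (1 + ((T I a ∩ T I a').card : ℝ) / r * (θ ^ r - 1)) := by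
        refine Finset.sum_le_sum fun a' _ => pow_le_lin θ hθ r _ hr ?_
        rw [← hI, ← card_T I a]
        exact Finset.card_le_card Finset.inter_subset_left
    _ = Fintype.card K + r * (θ ^ r - 1) := by
        rw [Finset.sum_add_distrib, Finset.sum_const, Finset.card_univ, nsmul_eq_mul, mul_one,
          ← Finset.sum_mul, ← Finset.sum_div, ← Nat.cast_sum, sum_card_inter, hI]
        push_cast
        field_simp

variable (b : ℕ)

/-- the word attached to the shifts `x` -/
def S (x : Fin b → K) : Finset (Fin b × K) := univ.filter fun p => p.2 ∈ T I (x p.1)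

theorem card_S (x : Fin b → K) : (S I b x).card = b * I.card := by
  rw [S, Finset.card_filter, Fintype.sum_prod_type]
  simp [card_T]

theorem card_S_inter (x y : Fin b → K) :
    (S I b x ∩ S I b y).card = ∑ j, (T I (x j) ∩ T I (y j)).card := by
  rw [S, S, ← Finset.filter_and, Finset.card_filter, Fintype.sum_prod_type]
  refine Finset.sum_congr rfl fun j _ => ?_
  rw [← Finset.card_filter]
  congr 1
  ext k
  simp

theorem card_bad_le (r : ℕ) (hr : 0 < r) (hI : I.card = r) (θ : ℝ) (hθ : 1 ≤ θ)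
    (x : Fin b → K) (L : ℕ) :
    ((univ.filter fun y => L ≤ (S I b x ∩ S I b y).card).card : ℝ) * θ ^ L ≤
      (Fintype.card K + r * (θ ^ r - 1)) ^ b := by
  have hθ0 : 0 ≤ θ := by linarith
  calc ((univ.filter fun y => L ≤ (S I b x ∩ S I b y).card).card : ℝ) * θ ^ L
      = ∑ y ∈ univ.filter (fun y => L ≤ (S I b x ∩ S I b y).card), θ ^ L := by
        rw [Finset.sum_const, nsmul_eq_mul]
    _ ≤ ∑ y ∈ univ.filter (fun y => L ≤ (S I b x ∩ S I b y).card), θ ^ (S I b x ∩ S I b y).card := by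
        refine Finset.sum_le_sum fun y hy => pow_le_pow_right₀ hθ ?_
        simpa using hy
    _ ≤ ∑ y : Fin b → K, θ ^ (S I b x ∩ S I b y).card := by
        refine Finset.sum_le_sum_of_subset_of_nonneg (Finset.filter_subset _ _) fun y _ _ => ?_
        positivity
    _ = ∑ y : Fin b → K, ∏ j, θ ^ (T I (x j) ∩ T I (y j)).card := by
        refine Finset.sum_congr rfl fun y _ => ?_
        rw [card_S_inter, Finset.prod_pow_eq_pow_sum]
    _ = ∏ j, ∑ a' : K, θ ^ (T I (x j) ∩ T I a').card := by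
        rw [Finset.prod_univ_sum, Fintype.piFinset_univ]
    _ ≤ ∏ _j : Fin b, (Fintype.card K + r * (θ ^ r - 1) : ℝ) := by
        refine Finset.prod_le_prod (fun j _ => Finset.sum_nonneg fun a' _ => by positivity) ?_
        exact fun j _ => sum_pow_le I r hr hI θ hθ (x j)
    _ = _ := by simp

theorem exists_family (r : ℕ) (hr : 0 < r) (hI : I.card = r) (hK : Fintype.card K = 2 * r + 1)
    (hb : 0 < b) (e : ℕ) (he : e < r) :
    ∃ W : Finset (Fin b → K),
      (∀ x ∈ W, ∀ y ∈ W, x ≠ y → 2 * (S I b x ∩ S I b y).card + e < b * r) ∧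
      (1 + 1 / (8 * (r : ℝ) ^ 2 + 8 * r + 1)) ^ b ≤ 2 * W.card := by
  classical
  have hr' : (0 : ℝ) < r := by exact_mod_cast hr
  have hr1 : (1 : ℝ) ≤ r := by exact_mod_cast hr
  obtain ⟨W, hW, hcard⟩ := greedy
    (fun x y : Fin b → K => b * r ≤ 2 * (S I b x ∩ S I b y).card + e)
    (fun x => by
      show b * r ≤ 2 * (S I b x ∩ S I b x).card + e
      rw [Finset.inter_self, card_S, hI]; nlinarith)
    (fun x y h => by
      show b * r ≤ 2 * (S I b y ∩ S I b x).card + e
      rw [Finset.inter_comm]; exact h)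
  refine ⟨W, fun x hx y hy hxy => not_le.1 (hW x hx y hy hxy), ?_⟩
  set u : ℝ := (2 * r + 1) / (2 * r) with hu
  have hu1 : 1 ≤ u := by
    rw [hu, le_div_iff₀ (by positivity)]; linarith
  have hu0 : 0 < u := by linarith
  have hu2 : u ≤ 2 := by
    rw [hu, div_le_iff₀ (by positivity)]; nlinarith
  set v : ℝ := u ^ ((r : ℝ)⁻¹) with hv
  have hvr : v ^ r = u := Real.rpow_inv_natCast_pow hu0.le hr.ne'
  have hv1 : 1 ≤ v := Real.one_le_rpow hu1 (by positivity)
  have hbad : ∀ x : Fin b → K,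
      ((univ.filter fun y => b * r ≤ 2 * (S I b x ∩ S I b y).card + e).card : ℝ) * u ^ (b - 1) ≤
        ((r : ℝ) + 1 + r * u ^ 2) ^ b := by
    intro x
    set L : ℕ := (b * r - e + 1) / 2 with hL
    have h1 := card_bad_le I b r hr hI (v ^ 2) (one_le_pow₀ hv1) x L
    have h2 : (univ.filter fun y => b * r ≤ 2 * (S I b x ∩ S I b y).card + e) =
        (univ.filter fun y => L ≤ (S I b x ∩ S I b y).card) := by
      ext y
      simp only [mem_filter, mem_univ, true_and]
      omega
    have h3 : u ^ (b - 1) ≤ (v ^ 2) ^ L := by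
      rw [← hvr, ← pow_mul, ← pow_mul]
      apply pow_le_pow_right₀ hv1
      have : r * (b - 1) + r = r * b := by
        obtain ⟨b', rfl⟩ : ∃ b', b = b' + 1 := ⟨b - 1, by omega⟩
        simp [mul_add]
      have hbr : b * r = r * b := mul_comm _ _
      omega
    have h4 : ((Fintype.card K : ℝ) + r * ((v ^ 2) ^ r - 1)) = (r : ℝ) + 1 + r * u ^ 2 := by
      rw [hK, ← pow_mul, mul_comm 2 r, pow_mul, hvr]
      push_cast
      ring
    rw [h2]
    rw [h4] at h1
    exact le_trans (mul_le_mul_of_nonneg_left h3 (Nat.cast_nonneg _)) h1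
  have htot : ((2 * r + 1 : ℝ)) ^ b * u ^ (b - 1) ≤ W.card * ((r : ℝ) + 1 + r * u ^ 2) ^ b := by
    have h1 : ((2 * r + 1 : ℝ)) ^ b ≤ ∑ x ∈ W,
        ((univ.filter fun y => b * r ≤ 2 * (S I b x ∩ S I b y).card + e).card : ℝ) := by
      have h2 : Fintype.card (Fin b → K) = (2 * r + 1) ^ b := by
        rw [Fintype.card_fun, hK, Fintype.card_fin]
      rw [h2] at hcard
      exact_mod_cast hcard
    calc ((2 * r + 1 : ℝ)) ^ b * u ^ (b - 1) ≤ (∑ x ∈ W,
        ((univ.filter fun y => b * r ≤ 2 * (S I b x ∩ S I b y).card + e).card : ℝ)) * u ^ (b - 1) :=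
          mul_le_mul_of_nonneg_right h1 (by positivity)
      _ = ∑ x ∈ W,
        ((univ.filter fun y => b * r ≤ 2 * (S I b x ∩ S I b y).card + e).card : ℝ) * u ^ (b - 1) := by
          rw [Finset.sum_mul]
      _ ≤ ∑ _x ∈ W, ((r : ℝ) + 1 + r * u ^ 2) ^ b := Finset.sum_le_sum fun x _ => hbad x
      _ = _ := by rw [Finset.sum_const, nsmul_eq_mul]
  have hkey : (1 + 1 / (8 * (r : ℝ) ^ 2 + 8 * r + 1)) * ((r : ℝ) + 1 + r * u ^ 2) = (2 * r + 1) * u := by
    rw [hu]
    field_simp
    ring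
  have hpos : 0 < (r : ℝ) + 1 + r * u ^ 2 := by positivity
  have hub : u ^ (b - 1) * u = u ^ b := by
    rw [← pow_succ]; congr 1; omega
  have h5 : ((1 + 1 / (8 * (r : ℝ) ^ 2 + 8 * r + 1)) ^ b) * ((r : ℝ) + 1 + r * u ^ 2) ^ b ≤
      (2 * W.card) * ((r : ℝ) + 1 + r * u ^ 2) ^ b := by
    rw [← mul_pow, hkey, mul_pow, ← hub, ← mul_assoc]
    calc (2 * (r : ℝ) + 1) ^ b * u ^ (b - 1) * u
        ≤ (W.card * ((r : ℝ) + 1 + r * u ^ 2) ^ b) * 2 :=
          mul_le_mul htot hu2 hu0.le (by positivity)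
      _ = _ := by ring
  exact le_of_mul_le_mul_right h5 (by positivity)

end Shift


section Word

variable {n : ℕ}

/-- the indicator word of a set of coordinates -/
def ind (A : Finset (Fin n)) : Fin n → Bool := fun i => decide (i ∈ A)

theorem dist_ind (A B : Finset (Fin n)) :
    hammingDist (ind A) (ind B) + 2 * (A ∩ B).card = A.card + B.card := by
  have h1 : hammingDist (ind A) (ind B) = (A \ B).card + (B \ A).card := by
    rw [← Finset.card_union_of_disjoint disjoint_sdiff_sdiff, hammingDist]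
    congr 1
    ext i
    by_cases hA : i ∈ A <;> by_cases hB : i ∈ B <;> simp [ind, hA, hB]
  have h2 := Finset.card_sdiff_add_card_inter A B
  have h3 := Finset.card_sdiff_add_card_inter B A
  rw [Finset.inter_comm B A] at h3
  omega

end Word

theorem exists_star_code (r b e n : ℕ) (hr : 0 < r) (hb : 0 < b) (he : e < r)
    (hn : b * (2 * r + 1) + e ≤ n) :
    ∃ C : Finset (Fin n → Bool), IsCode n (b * r + e) C ∧ 2 ≤ C.card ∧
      (1 + 1 / (8 * (r : ℝ) ^ 2 + 8 * r + 1)) ^ b ≤ 2 * ((C.card : ℝ) - 1) ∧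
      ∃ c : C, ∀ u v : C, (distGraph C (b * r + e)).Adj u v ↔ u ≠ v ∧ (u = c ∨ v = c) := by
  classical
  obtain ⟨I, -, hI⟩ : ∃ I ⊆ (Finset.univ : Finset (ZMod (2 * r + 1))), I.card = r :=
    Finset.exists_subset_card_eq (by rw [Finset.card_univ, ZMod.card]; omega)
  obtain ⟨W, hW, hcard⟩ := exists_family I b r hr hI (ZMod.card _) hb e he
  obtain ⟨ι⟩ : Nonempty ((Fin b × ZMod (2 * r + 1)) ⊕ Fin e ↪ Fin n) :=
    Function.Embedding.nonempty_of_card_le (by
      rw [Fintype.card_sum, Fintype.card_prod, ZMod.card, Fintype.card_fin, Fintype.card_fin,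
        Fintype.card_fin]
      exact hn)
  let A : (Fin b → ZMod (2 * r + 1)) → Finset (Fin n) :=
    fun x => ((S I b x).disjSum (Finset.univ : Finset (Fin e))).map ι
  have hA : ∀ x, (A x).card = b * r + e := by
    intro x
    simp only [A, Finset.card_map, Finset.card_disjSum, card_S, hI, Finset.card_univ,
      Fintype.card_fin]
  have hAA : ∀ x y, (A x ∩ A y).card = (S I b x ∩ S I b y).card + e := by
    intro x y
    simp only [A]
    rw [← Finset.map_inter, Finset.card_map]
    have : (S I b x).disjSum (Finset.univ : Finset (Fin e)) ∩ (S I b y).disjSum Finset.univ =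
        (S I b x ∩ S I b y).disjSum Finset.univ := by
      ext z
      rcases z with z | z <;> simp
    rw [this, Finset.card_disjSum, Finset.card_univ, Fintype.card_fin]
  have hdist : ∀ x ∈ W, ∀ y ∈ W, x ≠ y → b * r + e < hammingDist (ind (A x)) (ind (A y)) := by
    intro x hx y hy hxy
    have h1 := dist_ind (A x) (A y)
    have h2 := hW x hx y hy hxy
    rw [hA, hA, hAA] at h1
    omega
  have hzero : ∀ x, hammingDist (ind (∅ : Finset (Fin n))) (ind (A x)) = b * r + e := by
    intro x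
    have h1 := dist_ind ∅ (A x)
    rw [hA] at h1
    simpa using h1
  have hpos : 0 < b * r + e := by positivity
  have hinj : Set.InjOn (fun x => ind (A x)) (W : Set (Fin b → ZMod (2 * r + 1))) := by
    intro x hx y hy hxy
    by_contra hne
    have := hdist x hx y hy hne
    simp only at hxy
    rw [hxy, hammingDist_self] at this
    omega
  have hnot : ind (∅ : Finset (Fin n)) ∉ W.image (fun x => ind (A x)) := by
    intro hmem
    obtain ⟨x, hx, hx'⟩ := Finset.mem_image.1 hmem
    have := hzero x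
    rw [hx', hammingDist_self] at this
    omega
  let C : Finset (Fin n → Bool) := insert (ind ∅) (W.image fun x => ind (A x))
  have hC : C.card = W.card + 1 := by
    simp only [C]
    rw [Finset.card_insert_of_notMem hnot, Finset.card_image_of_injOn hinj]
  have hWpos : 1 ≤ W.card := by
    by_contra hcon
    have h0 : W.card = 0 := by omega
    rw [h0] at hcard
    have : (1 : ℝ) ≤ (1 + 1 / (8 * (r : ℝ) ^ 2 + 8 * r + 1)) ^ b :=
      one_le_pow₀ (by rw [le_add_iff_nonneg_right]; positivity)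
    rw [Nat.cast_zero, mul_zero] at hcard
    linarith
  have hdd : ∀ x ∈ C, ∀ y ∈ C, x ≠ y →
      ((hammingDist x y = b * r + e) ∧ (x = ind ∅ ∨ y = ind ∅)) ∨
        (b * r + e < hammingDist x y ∧ x ≠ ind ∅ ∧ y ≠ ind ∅) := by
    intro x hx y hy hxy
    rcases Finset.mem_insert.1 hx with rfl | hx
    · rcases Finset.mem_insert.1 hy with rfl | hy
      · exact absurd rfl hxy
      · obtain ⟨y', hy', rfl⟩ := Finset.mem_image.1 hy
        exact Or.inl ⟨hzero y', Or.inl rfl⟩
    · rcases Finset.mem_insert.1 hy with rfl | hy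
      · obtain ⟨x', hx', rfl⟩ := Finset.mem_image.1 hx
        exact Or.inl ⟨by rw [hammingDist_comm]; exact hzero x', Or.inr rfl⟩
      · obtain ⟨x', hx', rfl⟩ := Finset.mem_image.1 hx
        obtain ⟨y', hy', rfl⟩ := Finset.mem_image.1 hy
        refine Or.inr ⟨hdist x' hx' y' hy' fun h => hxy (by rw [h]), ?_, ?_⟩
        · intro h; exact hnot (h ▸ hx)
        · intro h; exact hnot (h ▸ hy)
  refine ⟨C, ?_, by omega, ?_, ⟨ind ∅, Finset.mem_insert_self _ _⟩, ?_⟩
  · intro x hx y hy hxy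
    rcases hdd x hx y hy hxy with h | h
    · exact h.1.ge
    · exact h.1.le
  · rw [hC]
    push_cast
    linarith
  · intro u v
    simp only [distGraph]
    constructor
    · rintro ⟨huv, hd⟩
      refine ⟨huv, ?_⟩
      rcases hdd u.1 u.2 v.1 v.2 (fun h => huv (Subtype.ext h)) with h | h
      · exact h.2.imp (fun h => Subtype.ext h) (fun h => Subtype.ext h)
      · omega
    · rintro ⟨huv, hc⟩
      refine ⟨huv, ?_⟩
      rcases hdd u.1 u.2 v.1 v.2 (fun h => huv (Subtype.ext h)) with h | h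
      · exact h.1
      · rcases hc with rfl | rfl
        · exact absurd rfl h.2.1
        · exact absurd rfl h.2.2

/-- The constant `c*(δ)` of the conjecture. -/
noncomputable def cstar (δ : ℝ) : ℝ :=
  δ * (1 - 2 * δ) *
      Real.logb 2 ((1 / 2 + Real.sqrt (δ * (1 - δ))) / (1 / 2 - Real.sqrt (δ * (1 - δ)))) /
    (16 * Real.sqrt (δ * (1 - δ)))

/-- The assertion of Q1 for one `δ`, with the constant `c` in place of `c*(δ)`. -/
def BoundAt (c δ : ℝ) : Prop :=
  ∃ ε₀ : ℝ, 0 < ε₀ ∧ ∀ ε : ℝ, 0 ≤ ε → ε ≤ ε₀ →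
    ∀ t : ℕ → ℝ, (∀ n, 1 ≤ t n) →
      (fun n => Real.logb 2 (t n)) =o[Filter.atTop] (fun n : ℕ => (n : ℝ)) →
      ∃ g : ℕ → ℝ, g =o[Filter.atTop] (fun n : ℕ => (n : ℝ)) ∧
        ∀ (n : ℕ) (C : Finset (Fin n → Bool)) (i : ℕ), IsCode n ⌊δ * n⌋₊ C →
          1 ≤ i → i ≤ n → ⌊δ * n⌋₊ ≤ i → (i : ℝ) ≤ (1 + ε) * ⌊δ * n⌋₊ →
          Balanced (t n) (distGraph C i) →
          unorm 4 (eig (distGraph C i)) / unorm 2 (eig (distGraph C i)) ≤
            (2 : ℝ) ^ (c * ε * n + g n)

/-- The conjecture of Q1. -/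
def Conjecture : Prop := ∀ δ : ℝ, 0 < δ → δ < 1 / 2 → BoundAt (cstar δ) δ

theorem quantitative (δ : ℝ) (h0 : 0 < δ) (h1 : δ < 1 / 2) :
    ∃ κ : ℝ, 0 < κ ∧ ∃ N : ℕ, ∀ n : ℕ, N ≤ n →
      1 ≤ ⌊δ * n⌋₊ ∧ ∃ C : Finset (Fin n → Bool), IsCode n ⌊δ * n⌋₊ C ∧
        (∃ c : C, ∀ u v : C, (distGraph C ⌊δ * n⌋₊).Adj u v ↔ u ≠ v ∧ (u = c ∨ v = c)) ∧
        Balanced 1 (distGraph C ⌊δ * n⌋₊) ∧
        (2 : ℝ) ^ (κ * n) ≤
          unorm 4 (eig (distGraph C ⌊δ * n⌋₊)) / unorm 2 (eig (distGraph C ⌊δ * n⌋₊)) := by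
  obtain ⟨r, hrδ⟩ := exists_nat_gt (δ / (1 - 2 * δ))
  have h12 : 0 < 1 - 2 * δ := by linarith
  have hr0' : (0 : ℝ) < r := lt_trans (by positivity) hrδ
  have hr0 : 0 < r := by exact_mod_cast hr0'
  have hr1 : (1 : ℝ) ≤ r := by exact_mod_cast hr0
  have hρ : δ * (2 * r + 1) < r := by
    rw [div_lt_iff₀ h12] at hrδ
    linarith
  set Q : ℝ := 1 + 1 / (8 * (r : ℝ) ^ 2 + 8 * r + 1) with hQ
  have hQ1 : 1 < Q := by
    rw [hQ, lt_add_iff_pos_right]; positivity
  set a : ℝ := Real.logb 2 Q with ha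
  have ha0 : 0 < a := Real.logb_pos (by norm_num) hQ1
  have hQa : (2 : ℝ) ^ a = Q := Real.rpow_logb (by norm_num) (by norm_num) (by linarith)
  refine ⟨a * δ / (8 * r), by positivity, ?_⟩
  obtain ⟨N₁, hN₁⟩ := exists_nat_gt ((r : ℝ) * r / (r - δ * (2 * r + 1)))
  obtain ⟨N₂, hN₂⟩ := exists_nat_gt ((r : ℝ) / δ)
  obtain ⟨N₃, hN₃⟩ := exists_nat_gt ((2 * a + 4) * (2 * r) / (a * δ))
  refine ⟨max N₁ (max N₂ N₃), fun n hn => ?_⟩
  have hn1 : (N₁ : ℝ) ≤ n := by exact_mod_cast (le_max_left _ _).trans hn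
  have hn2 : (N₂ : ℝ) ≤ n := by
    exact_mod_cast ((le_max_left _ _).trans (le_max_right _ _)).trans hn
  have hn3 : (N₃ : ℝ) ≤ n := by
    exact_mod_cast ((le_max_right _ _).trans (le_max_right _ _)).trans hn
  set d : ℕ := ⌊δ * n⌋₊ with hd
  have hdle : (d : ℝ) ≤ δ * n := Nat.floor_le (by positivity)
  have hdlt : δ * n < d + 1 := Nat.lt_floor_add_one _
  have hrd : r ≤ d := by
    apply Nat.le_floor
    have := hN₂.trans_le hn2
    rw [div_lt_iff₀ h0] at this
    linarith
  have hdiv : d / r * r + d % r = d := Nat.div_add_mod' d r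
  have hmod : d % r < r := Nat.mod_lt _ hr0
  have hb : 0 < d / r := Nat.div_pos hrd hr0
  have hbr : ((d / r : ℕ) : ℝ) * r ≤ δ * n := by
    refine le_trans ?_ hdle
    exact_mod_cast Nat.div_mul_le_self d r
  have hfit : d / r * (2 * r + 1) + d % r ≤ n := by
    have h2 : ((d / r : ℕ) : ℝ) * (2 * r + 1) + r ≤ n := by
      have h3 := hN₁.trans_le hn1
      rw [div_lt_iff₀ (by linarith)] at h3
      have h4 : (((d / r : ℕ) : ℝ) * (2 * r + 1) + r) * r ≤ n * r := by
        calc (((d / r : ℕ) : ℝ) * (2 * r + 1) + r) * r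
            = (((d / r : ℕ) : ℝ) * r) * (2 * r + 1) + r * r := by ring
          _ ≤ (δ * n) * (2 * r + 1) + r * r := by
              have := mul_le_mul_of_nonneg_right hbr (by positivity : (0 : ℝ) ≤ 2 * r + 1)
              linarith
          _ ≤ n * r := by nlinarith
      exact le_of_mul_le_mul_right h4 hr0'
    have h5 : ((d / r * (2 * r + 1) + r : ℕ) : ℝ) ≤ n := by push_cast; exact h2
    have h6 : d / r * (2 * r + 1) + r ≤ n := by exact_mod_cast h5
    omega
  obtain ⟨C, hcode, hC2, hCcard, c, hstar⟩ := exists_star_code r (d / r) (d % r) n hr0 hb hmod hfit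
  rw [hdiv] at hcode hstar
  refine ⟨by omega, C, hcode, ⟨c, hstar⟩, ?_, ?_⟩
  · exact star_balanced (distGraph C d) c hstar (by rw [Fintype.card_coe]; exact hC2)
  · have hratio := star_ratio (distGraph C d) c hstar (by rw [Fintype.card_coe]; exact hC2)
    refine le_trans ?_ hratio
    rw [Fintype.card_coe]
    have hblow : δ / r * n - 2 ≤ ((d / r : ℕ) : ℝ) := by
      have h1 : d < (d / r + 1) * r := by
        rw [add_mul, one_mul]; omega
      have h2 : (d : ℝ) < (((d / r : ℕ) : ℝ) + 1) * r := by exact_mod_cast h1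
      have h3 : (δ / r * n - 2) * r ≤ ((d / r : ℕ) : ℝ) * r := by
        have h4 : (δ / r * n - 2) * r = δ * n - 2 * r := by field_simp
        rw [h4]
        nlinarith
      exact le_of_mul_le_mul_right h3 hr0'
    have hQb : (2 : ℝ) ^ (a * (δ / r * n - 2)) ≤ Q ^ (d / r) := by
      rw [← hQa, ← Real.rpow_natCast, ← Real.rpow_mul (by norm_num)]
      exact Real.rpow_le_rpow_of_exponent_le (by norm_num) (mul_le_mul_of_nonneg_left hblow ha0.le)
    have hbig : (2 : ℝ) ^ (4 * (a * δ / (8 * r) * n)) * 16 ≤ 2 * ((C.card : ℝ) - 1) := by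
      refine le_trans ?_ (hQb.trans hCcard)
      rw [show (16 : ℝ) = 2 ^ (4 : ℝ) by norm_num, ← Real.rpow_add (by norm_num)]
      apply Real.rpow_le_rpow_of_exponent_le (by norm_num)
      have h3 := hN₃.trans_le hn3
      rw [div_lt_iff₀ (by positivity)] at h3
      have e1 : 4 * (a * δ / (8 * r) * n) = (n * (a * δ)) / (2 * r) := by field_simp; ring
      have e2 : a * (δ / r * n - 2) = 2 * ((n * (a * δ)) / (2 * r)) - 2 * a := by field_simp
      rw [e1, e2]
      have h4 : 2 * a + 4 ≤ (n * (a * δ)) / (2 * r) := by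
        rw [le_div_iff₀ (by positivity)]; linarith
      linarith
    have e3 : (2 : ℝ) ^ (a * δ / (8 * r) * n) =
        ((2 : ℝ) ^ (4 * (a * δ / (8 * r) * n))) ^ ((1 : ℝ) / 4) := by
      rw [← Real.rpow_mul (by norm_num)]
      congr 1
      ring
    rw [e3]
    apply Real.rpow_le_rpow (by positivity) _ (by norm_num)
    linarith

theorem not_boundAt (c δ : ℝ) (h0 : 0 < δ) (h1 : δ < 1 / 2) : ¬ BoundAt c δ := by
  rintro ⟨ε₀, hε₀, h⟩
  obtain ⟨g, hg, hb⟩ := h 0 le_rfl hε₀.le (fun _ => 1) (fun _ => le_rfl) (by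
    simp only [Real.logb_one]
    exact Asymptotics.isLittleO_zero _ _)
  obtain ⟨κ, hκ, N, hN⟩ := quantitative δ h0 h1
  have hev := hg.def (by positivity : 0 < κ / 2)
  obtain ⟨N', hN'⟩ := Filter.eventually_atTop.1 hev
  set n := max 1 (max N N') with hn
  have hn1 : 1 ≤ n := le_max_left _ _
  have hnN : N ≤ n := (le_max_left _ _).trans (le_max_right _ _)
  have hnN' : N' ≤ n := (le_max_right _ _).trans (le_max_right _ _)
  obtain ⟨hd1, C, hC, -, hbal, hratio⟩ := hN n hnN
  have hdn : ⌊δ * n⌋₊ ≤ n := by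
    apply Nat.floor_le_of_le
    have : (0 : ℝ) ≤ n := Nat.cast_nonneg n
    nlinarith
  have h2 := hb n C ⌊δ * n⌋₊ hC hd1 hdn le_rfl (by linarith) hbal
  have h3 := hratio.trans h2
  rw [Real.rpow_le_rpow_left_iff (by norm_num)] at h3
  have h4 := hN' n hnN'
  rw [Real.norm_eq_abs, Real.norm_eq_abs, abs_of_nonneg (Nat.cast_nonneg n : (0 : ℝ) ≤ n)] at h4
  have h5 := (le_abs_self (g n)).trans h4
  have hn0 : (0 : ℝ) < n := by exact_mod_cast hn1
  nlinarith [mul_pos hκ hn0]

/-- The conjecture fails, for every `δ ∈ (0,1/2)` and with every constant `c` in place of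
`c*(δ)`: already for `ε = 0`, `t ≡ 1` there are codes of length `n` and minimal distance
`d = ⌊δ n⌋` whose distance-`d` graph is a star (hence `1`-balanced) and for which
`‖λ‖₄ / ‖λ‖₂` is exponentially large in `n`. -/
theorem result :
    ¬ Conjecture ∧
    (∀ c δ : ℝ, 0 < δ → δ < 1 / 2 → ¬ BoundAt c δ) ∧
    ∀ δ : ℝ, 0 < δ → δ < 1 / 2 → ∃ κ : ℝ, 0 < κ ∧ ∃ N : ℕ, ∀ n : ℕ, N ≤ n →
      1 ≤ ⌊δ * n⌋₊ ∧ ∃ C : Finset (Fin n → Bool), IsCode n ⌊δ * n⌋₊ C ∧
        (∃ c : C, ∀ u v : C, (distGraph C ⌊δ * n⌋₊).Adj u v ↔ u ≠ v ∧ (u = c ∨ v = c)) ∧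
        Balanced 1 (distGraph C ⌊δ * n⌋₊) ∧
        (2 : ℝ) ^ (κ * n) ≤
          unorm 4 (eig (distGraph C ⌊δ * n⌋₊)) / unorm 2 (eig (distGraph C ⌊δ * n⌋₊)) :=
  ⟨fun h => not_boundAt _ (1 / 4) (by norm_num) (by norm_num) (h _ (by norm_num) (by norm_num)),
    not_boundAt, quantitative⟩

end Pool.Agent.Results.MP_5eddec_co.StarCounterexample
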